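import Mathlib
import Pool.Agent.Y55.GCR.Tail
import Pool.Agent.Results.MP_3f8e47_nt.ThreeQuarters

/-!
# The gcd recursion for prime triples: power saving, at every time of the descent

At every time `s` of the descent the remaining time `f(N) - s` is at most three quarters of the
current value `a_N(s)`, up to a power saving and to the least prime factor of
`(f(N)+1)(f(N)+3)(f(N)+7)`.
-/

set_option autoImplicit false

namespace Pool.Agent.Results.MP_3f8e47_nt.EveryTimePowerSaving

open Finset Pool.Agent.H399R2 Pool.Agent.TH999.GCR Pool.Agent.Y55.GCR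
open Pool.Agent.Results.MP_3f8e47_nt.LongLife Pool.Agent.Results.MP_3f8e47_nt.ThreeQuarters

/-- every final part of the descent is good -/
lemma good_at (s f : ℕ) (x : ℕ → ℕ) (hseg : Seg x (fun n => ((n + b n : ℕ) : ℤ)) s f) :
    ∃ (per : ℕ → ℕ) (R : ℕ → Finset ℕ),
      Good x (fun n => ((n + b n : ℕ) : ℤ)) s f 3 3 per R := by
  set V : ℕ → ℤ := fun n => ((n + b n : ℕ) : ℤ) with hVdef
  classical
  set c := (3 + 1) * s + 3 * x s with hc
  refine ⟨fun p => if p ≤ 3 then p else 3 * p,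
    fun p => if p ≤ 3 then ∅ else (range 3).biUnion
      (fun i => (range p).filter (fun j => p ∣ 3 * j + i + c + 4 * b (s + i))), hseg, ?_, ?_, ?_, ?_, ?_⟩
  · intro p hp
    have := hp.pos
    split_ifs <;> omega
  · intro p hp
    split_ifs
    · exact dvd_rfl
    · exact Dvd.intro_left _ rfl
  · intro p hp n hn
    have hp2 := hp.two_le
    split_ifs with h3
    · have h4 : p = 2 ∨ p = 3 := by omega
      rcases h4 with rfl | rfl
      · have e1 := b_even n
        have e2 := b_even (n + 2)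
        simp only [hVdef]
        intro h
        have h5 : 2 ∣ n + 2 + b (n + 2) := by exact_mod_cast h
        have h6 : 2 ∣ n + b n := by omega
        exact_mod_cast h6
      · simp only [hVdef]
        rw [b_add_three]
        intro h
        have h5 : 3 ∣ n + 3 + b n := by exact_mod_cast h
        have h6 : 3 ∣ n + b n := by omega
        exact_mod_cast h6
    · have e1 : V (n + 3 * p) = V n + (p : ℤ) * 3 := by
        simp only [hVdef]; rw [b_add]; push_cast; ring
      rw [e1]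
      exact (Int.dvd_add_left (Dvd.intro _ rfl)).mp
  · intro p hp
    have hp2 := hp.two_le
    by_cases h3 : p ≤ 3
    · left
      rw [if_pos h3]
      omega
    · right
      rw [if_neg h3, if_neg h3]
      refine ⟨le_rfl, ?_⟩
      intro n hn hV j i hi hmod hmod3
      rw [mem_biUnion]
      refine ⟨i, mem_range.mpr hi, ?_⟩
      rw [mem_filter, mem_range]
      refine ⟨Nat.mod_lt _ hp.pos, ?_⟩
      have hb : b n = b (s + i) := b_congr hmod3
      have hV' : p ∣ n + b (s + i) := by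
        rw [← hb]
        simp only [hVdef] at hV
        exact_mod_cast hV
      have h5 : p ∣ (3 + 1) * n + 4 * b (s + i) := by
        have : (3 + 1) * n + 4 * b (s + i) = 4 * (n + b (s + i)) := by ring
        rw [this]
        exact Dvd.dvd.mul_left hV' _
      have h6 : (3 + 1) * n + 4 * b (s + i) ≡ 3 * (j % p) + i + c + 4 * b (s + i) [MOD p] := by
        apply Nat.ModEq.add_right
        refine hmod.trans ?_
        have e1 : (3 + 1) * s + 3 * x s + 3 * j + i = 3 * j + (i + c) := by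
          rw [hc]; ring
        have e2 : 3 * (j % p) + i + c = 3 * (j % p) + (i + c) := by ring
        rw [e1, e2]
        exact Nat.ModEq.add_right _ (Nat.ModEq.mul_left 3 (Nat.mod_modEq j p).symm)
      exact (Nat.ModEq.dvd_iff h6 dvd_rfl).mp h5
  · intro p hp
    by_cases h3 : p ≤ 3
    · rw [if_pos h3]
      simp
    · rw [if_neg h3]
      have h4 : ww 3 p = 3 := by
        unfold ww
        rw [if_neg h3]
      rw [h4]
      have h5 := Finset.card_biUnion_le_card_mul (range 3)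
        (fun i => (range p).filter (fun j => p ∣ 3 * j + i + c + 4 * b (s + i))) 1 (by
          intro i _
          rw [Finset.card_le_one]
          intro j hj j' hj'
          rw [mem_filter, mem_range] at hj hj'
          have h1 : 3 * j + (i + c + 4 * b (s + i)) ≡ 3 * j' + (i + c + 4 * b (s + i)) [MOD p] := by
            have e1 : 3 * j + i + c + 4 * b (s + i) = 3 * j + (i + c + 4 * b (s + i)) := by ring
            have e2 : 3 * j' + i + c + 4 * b (s + i) = 3 * j' + (i + c + 4 * b (s + i)) := by ring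
            rw [← e1, ← e2]
            exact ((Nat.modEq_zero_iff_dvd).mpr hj.2).trans ((Nat.modEq_zero_iff_dvd).mpr hj'.2).symm
          have h2 := Nat.ModEq.add_right_cancel' _ h1
          have hcop : Nat.gcd p 3 = 1 := by
            have : Nat.Coprime p 3 := by
              rw [Nat.coprime_primes hp Nat.prime_three]; omega
            exact this
          have h7 : j ≡ j' [MOD p] := Nat.ModEq.cancel_left_of_coprime hcop h2
          have h8 : j % p = j' % p := h7
          rwa [Nat.mod_eq_of_lt hj.1, Nat.mod_eq_of_lt hj'.1] at h8)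
      rw [card_range] at h5
      exact h5

/-- There are absolute constants `δ > 0` and `C` such that for all `N ≥ 6`, the recursion
`a = a_N` of the problem and its zero `f = f(N)`: (1) at every time `s` of the descent
(`1 ≤ s ≤ f`) every prime factor `p` of `f+1`, `f+3` or `f+7` satisfies
`4 (f - s) ≤ 3 a(s) + 3 p + C a(s)^(1-δ)`; (2) if `4 (f - s) > 3 a(s) + 3 √(f+7) + C a(s)^(1-δ)` at
some time `s` of the descent, then `f+1`, `f+3`, `f+7` are prime; (3) either `f+1`, `f+3`, `f+7`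
are all prime or `f ≤ (3/4) N + C N^(1-δ)`. Here `b` is the 3-periodic sequence `2, 6, 0, ...`. -/
theorem result :
    ∃ δ C : ℝ, 0 < δ ∧ 0 < C ∧ ∀ N : ℕ, 6 ≤ N → ∀ a : ℕ → ℤ, a 1 = (N : ℤ) - 6 →
      (∀ n : ℕ, 2 ≤ n → a n = a (n - 1) - ((Int.gcd (a (n - 1)) ((n + b n : ℕ) : ℤ) : ℕ) : ℤ)) →
      ∀ f : ℕ, IsLeast {n : ℕ | 1 ≤ n ∧ a n = 0} f →
        (∀ s : ℕ, 1 ≤ s → s ≤ f → ∀ p : ℕ, p.Prime → (p ∣ f + 1 ∨ p ∣ f + 3 ∨ p ∣ f + 7) →
          4 * ((f : ℝ) - s) ≤ 3 * (a s : ℝ) + 3 * p + C * (a s : ℝ) ^ (1 - δ)) ∧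
        (∀ s : ℕ, 1 ≤ s → s ≤ f →
          3 * (a s : ℝ) + 3 * √((f : ℝ) + 7) + C * (a s : ℝ) ^ (1 - δ) < 4 * ((f : ℝ) - s) →
          Nat.Prime (f + 1) ∧ Nat.Prime (f + 3) ∧ Nat.Prime (f + 7)) ∧
        ((Nat.Prime (f + 1) ∧ Nat.Prime (f + 3) ∧ Nat.Prime (f + 7)) ∨
          (f : ℝ) ≤ 3 / 4 * N + C * (N : ℝ) ^ (1 - δ)) := by
  obtain ⟨δ, C₀, hδ, hδ4, hC₀, hmain⟩ := tail 3 3 (by norm_num)
  refine ⟨δ, C₀ + 9, hδ, by positivity, ?_⟩
  intro N hN a ha1 ha f hf
  obtain ⟨per0, R0, hgood0⟩ := good N hN a ha1 ha f hf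
  have hseg := hgood0.seg
  have hf1 : 1 ≤ f := hf.1.1
  have haf : a f = 0 := hf.1.2
  have hmin' : ∀ k, 1 ≤ k → k < f → a k ≠ 0 := by
    intro k hk1 hk2 hk3
    have := hf.2 ⟨hk1, hk3⟩
    omega
  have hnn : ∀ k, 1 ≤ k → k ≤ f → 0 ≤ a k := by
    intro k hk
    induction k, hk using Nat.le_induction with
    | base => intro _; rw [ha1]; omega
    | succ k hk ih =>
      intro hkf
      have h1 := ih (by omega)
      have hpos : 0 < a k := lt_of_le_of_ne h1 (Ne.symm (hmin' k hk (by omega)))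
      rw [ha (k + 1) (by omega), Nat.add_sub_cancel]
      have := Int.le_of_dvd hpos (Int.gcd_dvd_left (a := a k) (b := ((k + 1 + b (k + 1) : ℕ) : ℤ)))
      linarith
  have hcast : ∀ k, 1 ≤ k → k ≤ f → (((a k).natAbs : ℕ) : ℝ) = (a k : ℝ) := by
    intro k hk hk2
    rw [Nat.cast_natAbs, abs_of_nonneg (hnn k hk hk2)]
  have hxf : (a f).natAbs = 0 := by rw [haf]; rfl
  -- the main inequality at time `s`
  have hA : ∀ s : ℕ, 1 ≤ s → s ≤ f → ∀ p : ℕ, p.Prime → (p ∣ f + 1 ∨ p ∣ f + 3 ∨ p ∣ f + 7) →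
      4 * ((f : ℝ) - s) ≤ 3 * (a s : ℝ) + 3 * p + C₀ * (a s : ℝ) ^ (1 - δ) := by
    intro s hs1 hs2 p hp hdvd
    obtain ⟨per, R, hgood⟩ := good_at s f (fun k => (a k).natAbs) (seg_sub hseg hs1 hs2)
    obtain ⟨l, hsl, hle, htr, hrun, hl⟩ := hmain _ _ _ _ _ _ hgood hxf
    have hdet := detect a f l (by omega) hle htr hrun p hp hdvd
    simp only [hcast s hs1 hs2] at hl
    have h2 : (f : ℝ) - l ≤ 3 * p := by
      have h3 : f ≤ l + 3 * p := by omega
      have h4 : (f : ℝ) ≤ ((l + 3 * p : ℕ) : ℝ) := by exact_mod_cast h3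
      push_cast at h4
      linarith
    push_cast at hl
    linarith
  have hrpow0 : ∀ s : ℕ, 1 ≤ s → s ≤ f → 0 ≤ (a s : ℝ) ^ (1 - δ) := by
    intro s hs hs2
    apply Real.rpow_nonneg
    exact_mod_cast hnn s hs hs2
  -- the least prime factors
  have hB : ∀ s : ℕ, 1 ≤ s → s ≤ f →
      (Nat.Prime (f + 1) ∧ Nat.Prime (f + 3) ∧ Nat.Prime (f + 7)) ∨
      4 * ((f : ℝ) - s) ≤ 3 * (a s : ℝ) + 3 * √((f : ℝ) + 7) + C₀ * (a s : ℝ) ^ (1 - δ) := by
    intro s hs1 hs2
    have key : ∀ p : ℕ, p.Prime → (p ∣ f + 1 ∨ p ∣ f + 3 ∨ p ∣ f + 7) → p ≤ Nat.sqrt (f + 7) →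
        4 * ((f : ℝ) - s) ≤ 3 * (a s : ℝ) + 3 * √((f : ℝ) + 7) + C₀ * (a s : ℝ) ^ (1 - δ) := by
      intro p hp h1 h2
      have h3 := hA s hs1 hs2 p hp h1
      have h4 : (p : ℝ) ≤ ((Nat.sqrt (f + 7) : ℕ) : ℝ) := by exact_mod_cast h2
      have h5 : ((Nat.sqrt (f + 7) : ℕ) : ℝ) ≤ √((f + 7 : ℕ) : ℝ) :=
        Real.nat_sqrt_le_real_sqrt
      push_cast at h5
      linarith
    by_cases hp1 : Nat.Prime (f + 1)
    · by_cases hp2 : Nat.Prime (f + 3)
      · by_cases hp3 : Nat.Prime (f + 7)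
        · exact Or.inl ⟨hp1, hp2, hp3⟩
        · right
          apply key (Nat.minFac (f + 7)) (Nat.minFac_prime (by omega))
            (Or.inr (Or.inr (Nat.minFac_dvd _)))
          rw [Nat.le_sqrt']
          exact (Nat.minFac_sq_le_self (by omega) hp3).trans (by omega)
      · right
        apply key (Nat.minFac (f + 3)) (Nat.minFac_prime (by omega))
          (Or.inr (Or.inl (Nat.minFac_dvd _)))
        rw [Nat.le_sqrt']
        exact (Nat.minFac_sq_le_self (by omega) hp2).trans (by omega)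
    · right
      apply key (Nat.minFac (f + 1)) (Nat.minFac_prime (by omega)) (Or.inl (Nat.minFac_dvd _))
      rw [Nat.le_sqrt']
      exact (Nat.minFac_sq_le_self (by omega) hp1).trans (by omega)
  refine ⟨?_, ?_, ?_⟩
  · intro s hs1 hs2 p hp hdvd
    have h1 := hA s hs1 hs2 p hp hdvd
    have h2 := hrpow0 s hs1 hs2
    linarith
  · intro s hs1 hs2 hlt
    rcases hB s hs1 hs2 with h | h
    · exact h
    · exfalso
      have h2 := hrpow0 s hs1 hs2
      linarith
  · rcases hB 1 le_rfl hf1 with h | h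
    · exact Or.inl h
    right
    have hdec := decr hseg f hf1 le_rfl
    have hx1 : (((a 1).natAbs : ℕ) : ℤ) = N - 6 := by
      rw [ha1]; exact Int.natAbs_of_nonneg (by omega)
    simp only [hxf] at hdec
    have hfN : f + 5 ≤ N := by omega
    have hNr : (6 : ℝ) ≤ N := by exact_mod_cast hN
    have hfr : (f : ℝ) + 5 ≤ N := by exact_mod_cast hfN
    have hst : (a 1 : ℝ) = N - 6 := by rw [ha1]; push_cast; ring
    rw [hst] at h
    have h1 : ((N : ℝ) - 6) ^ (1 - δ) ≤ (N : ℝ) ^ (1 - δ) :=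
      Real.rpow_le_rpow (by linarith) (by linarith) (by linarith)
    have h6 : √((f : ℝ) + 7) ≤ 3 * (N : ℝ) ^ (1 - δ) := by
      calc √((f : ℝ) + 7) ≤ √(9 * N) := Real.sqrt_le_sqrt (by linarith)
        _ = 3 * √N := by
            rw [Real.sqrt_mul (by norm_num), show (9 : ℝ) = 3 ^ 2 by norm_num,
              Real.sqrt_sq (by norm_num)]
        _ ≤ 3 * (N : ℝ) ^ (1 - δ) := by
            apply mul_le_mul_of_nonneg_left _ (by norm_num)
            rw [Real.sqrt_eq_rpow]
            exact Real.rpow_le_rpow_of_exponent_le (by linarith) (by linarith)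
    have h9 : (1 : ℝ) ≤ (N : ℝ) ^ (1 - δ) := Real.one_le_rpow (by linarith) (by linarith)
    push_cast at h
    nlinarith

end Pool.Agent.Results.MP_3f8e47_nt.EveryTimePowerSaving
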